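import Pool.Agent.Helper87.VM.Lib2

/-! # SMR: nonsingularity inside a hyperplane -/

set_option autoImplicit false

namespace Pool.Agent.Helper87.VM

open MvPolynomial Pool.Agent.Helper48.VMRT

theorem smr_span {w c : ℕ} (F : Fin c → MvPolynomial (Fin w) ℂ) (q : MvPolynomial (Fin w) ℂ)
    (hq : q ∈ Ideal.span (Set.range F)) : ∃ a : Fin c → MvPolynomial (Fin w) ℂ, q = ∑ i, a i * F i := by
  obtain ⟨a, ha⟩ := (Submodule.mem_span_range_iff_exists_fun _).1 hq
  exact ⟨a, by rw [← ha]; rfl⟩

theorem smr_mem {w c : ℕ} (F : Fin c → MvPolynomial (Fin w) ℂ) (a : Fin c → MvPolynomial (Fin w) ℂ) :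
    ∑ i, a i * F i ∈ Ideal.span (Set.range F) :=
  Ideal.sum_mem _ (fun i _ => Ideal.mul_mem_left _ _ (Ideal.subset_span ⟨i, rfl⟩))

/-- linear independence of the gradients in terms of `dpol` -/
theorem smr_li {w c : ℕ} (F : Fin c → MvPolynomial (Fin w) ℂ) (z : Fin w → ℂ) :
    LinearIndependent ℂ (fun i => (fun j => eval z (pderiv j (F i)) : Fin w → ℂ)) ↔
      ∀ g : Fin c → ℂ, (∀ v, ∑ i, g i * dpol (F i) z v = 0) → ∀ i, g i = 0 := by
  classical
  rw [Fintype.linearIndependent_iff]
  constructor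
  · intro h g hg
    apply h g
    funext j
    have h1 := hg (Pi.single j 1)
    rw [Finset.sum_apply, Pi.zero_apply, ← h1]
    refine Finset.sum_congr rfl (fun i _ => ?_)
    have h2 : dpol (F i) z (Pi.single j 1) = eval z (pderiv j (F i)) := by
      unfold dpol
      rw [Finset.sum_eq_single j]
      · rw [Pi.single_eq_same, mul_one]
      · intro k _ hk
        rw [Pi.single_eq_of_ne hk, mul_zero]
      · intro hj
        exact absurd (Finset.mem_univ j) hj
    rw [h2]
    rfl
  · intro h g hg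
    apply h g
    intro v
    have h1 : ∀ j, ∑ i, g i * eval z (pderiv j (F i)) = 0 := by
      intro j
      have h2 := congrFun hg j
      rw [Finset.sum_apply] at h2
      exact h2
    unfold dpol
    calc ∑ i, g i * ∑ j, eval z (pderiv j (F i)) * v j
        = ∑ i, ∑ j, g i * (eval z (pderiv j (F i)) * v j) := by
          refine Finset.sum_congr rfl (fun i _ => ?_)
          rw [Finset.mul_sum]
      _ = ∑ j, ∑ i, g i * (eval z (pderiv j (F i)) * v j) := Finset.sum_comm
      _ = ∑ j, (∑ i, g i * eval z (pderiv j (F i))) * v j := by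
          refine Finset.sum_congr rfl (fun j _ => ?_)
          rw [Finset.sum_mul]
          refine Finset.sum_congr rfl (fun i _ => ?_)
          ring
      _ = 0 := by
          refine Finset.sum_eq_zero (fun j _ => ?_)
          rw [h1, zero_mul]

theorem st_SMR : ST_SMR := by
  classical
  intro w n φ Z hZ hsm z hz hz0
  -- the linear maps
  obtain ⟨L, hL⟩ : ∃ L : (Fin w → ℂ) →ₗ[ℂ] (Fin n → ℂ), ∀ u, L u = φ (u, 0) :=
    ⟨φ.toLinearMap.comp (LinearMap.inl ℂ (Fin w → ℂ) ℂ), fun u => rfl⟩
  obtain ⟨Lp, hLp⟩ : ∃ Lp : (Fin n → ℂ) →ₗ[ℂ] (Fin w → ℂ), ∀ v, Lp v = (φ.symm v).1 :=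
    ⟨(LinearMap.fst ℂ (Fin w → ℂ) ℂ).comp φ.symm.toLinearMap, fun u => rfl⟩
  obtain ⟨lam, hlam⟩ : ∃ lam : (Fin n → ℂ) →ₗ[ℂ] ℂ, ∀ v, lam v = (φ.symm v).2 :=
    ⟨(LinearMap.snd ℂ (Fin w → ℂ) ℂ).comp φ.symm.toLinearMap, fun u => rfl⟩
  have hlamL : ∀ u, lam (L u) = 0 := fun u => by
    rw [hlam, hL, LinearEquiv.symm_apply_apply]
  have hLpL : ∀ u, Lp (L u) = u := fun u => by
    rw [hLp, hL, LinearEquiv.symm_apply_apply]
  have hlamZ : ∀ x ∈ Z, lam x = 0 := by
    intro x hx
    obtain ⟨u, hu⟩ := hZ x hx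
    rw [hu, ← hL, hlamL]
  have hx : L z ∈ Z := by rw [hL]; exact hz
  have hx0 : L z ≠ 0 := by
    intro h
    apply hz0
    rw [← hLpL z, h, map_zero]
  obtain ⟨c, F, hF, hli, h, hh, hgen⟩ := hsm (L z) hx hx0
  rw [smr_li] at hli
  -- the linear form
  have hlp : linp lam ∈ vanishingIdeal ℂ Z := mem_vI.2 (fun x hx => by rw [eval_linp, hlamZ x hx])
  obtain ⟨a, ha⟩ := smr_span F _ (hgen _ hlp)
  have hd : ∀ v, eval (L z) h * lam v = ∑ i, eval (L z) (a i) * dpol (F i) (L z) v := by
    intro v
    have h1 := congrArg (fun q => dpol q (L z) v) ha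
    simp only [dpol_mul, dpol_linp, eval_linp, hlamL, zero_mul, add_zero, dpol_sum] at h1
    rw [h1]
    refine Finset.sum_congr rfl (fun i _ => ?_)
    rw [mem_vI.1 (hF i) _ hx, zero_mul, add_zero]
  obtain ⟨e, he⟩ : ∃ e, e = φ (0, 1) := ⟨_, rfl⟩
  have hlame : lam e = 1 := by rw [hlam, he, LinearEquiv.symm_apply_apply]
  have hi0 : ∃ i₀, eval (L z) (a i₀) ≠ 0 := by
    by_contra hcon
    push Not at hcon
    have h1 := hd e
    rw [hlame, mul_one, Finset.sum_eq_zero (fun i _ => by rw [hcon i, zero_mul])] at h1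
    exact hh h1
  obtain ⟨i₀, hi₀⟩ := hi0
  obtain ⟨c', rfl⟩ : ∃ c', c = c' + 1 := ⟨c - 1, by have := i₀.2; omega⟩
  have hpm : ∀ p q : MvPolynomial (Fin n) ℂ, pull L (p * q) = pull L p * pull L q := fun p q => by
    unfold pull
    exact map_mul _ p q
  have hps : ∀ q : Fin (c' + 1) → MvPolynomial (Fin n) ℂ, pull L (∑ i, q i) = ∑ i, pull L (q i) :=
    fun q => by
      unfold pull
      exact map_sum _ q _
  refine ⟨c', fun i => pull L (F (i₀.succAbove i)), ?_, ?_, pull L (a i₀ * h), ?_, ?_⟩
  · intro i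
    rw [mem_vI]
    intro u hu
    have hu' : L u ∈ Z := by rw [hL]; exact hu
    rw [eval_pull]
    exact mem_vI.1 (hF _) _ hu'
  · rw [smr_li]
    intro g hg
    -- the linear form `μ`
    have hμ : ∀ u, ∑ i, g i * dpol (F (i₀.succAbove i)) (L z) (L u) = 0 := by
      intro u
      rw [← hg u]
      refine Finset.sum_congr rfl (fun i _ => ?_)
      rw [dpol_pull]
    obtain ⟨m, hm⟩ : ∃ m, m = ∑ i, g i * dpol (F (i₀.succAbove i)) (L z) e := ⟨_, rfl⟩
    have hμ2 : ∀ v, ∑ i, g i * dpol (F (i₀.succAbove i)) (L z) v = m * lam v := by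
      intro v
      have hv : v = L (Lp v) + lam v • e := by
        rw [hL, hLp, hlam, he, ← map_smul, ← map_add]
        have : ((φ.symm v).1, (0 : ℂ)) + (φ.symm v).2 • ((0 : Fin w → ℂ), (1 : ℂ)) = φ.symm v := by
          ext
          · simp
          · simp
        rw [this, LinearEquiv.apply_symm_apply]
      have h2 : ∑ i, g i * dpol (F (i₀.succAbove i)) (L z) v =
          ∑ i, g i * dpol (F (i₀.succAbove i)) (L z) (L (Lp v)) +
            lam v * ∑ i, g i * dpol (F (i₀.succAbove i)) (L z) e := by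
        rw [Finset.mul_sum, ← Finset.sum_add_distrib]
        refine Finset.sum_congr rfl (fun i _ => ?_)
        conv_lhs => rw [hv]
        rw [dpol_add_right, dpol_smul_right]
        ring
      rw [h2, hμ, ← hm]
      ring
    -- all coefficients
    have hall := hli (fun i => eval (L z) h * (if hi : i = i₀ then 0 else
        g (Classical.choose (Fin.exists_succAbove_eq hi))) - m * eval (L z) (a i)) (by
      intro v
      have h3 : ∀ i, (eval (L z) h * (if hi : i = i₀ then 0 else
        g (Classical.choose (Fin.exists_succAbove_eq hi))) - m * eval (L z) (a i)) *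
          dpol (F i) (L z) v = eval (L z) h * ((if hi : i = i₀ then 0 else
        g (Classical.choose (Fin.exists_succAbove_eq hi))) * dpol (F i) (L z) v) -
          m * (eval (L z) (a i) * dpol (F i) (L z) v) := by
        intro i
        ring
      rw [Finset.sum_congr rfl (fun i _ => h3 i), Finset.sum_sub_distrib, ← Finset.mul_sum,
        ← Finset.mul_sum, ← hd v]
      have h4 : ∑ i, ((if hi : i = i₀ then 0 else
        g (Classical.choose (Fin.exists_succAbove_eq hi))) * dpol (F i) (L z) v) = m * lam v := by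
        rw [Fin.sum_univ_succAbove _ i₀, ← hμ2 v]
        rw [dif_pos rfl, zero_mul, zero_add]
        refine Finset.sum_congr rfl (fun i _ => ?_)
        rw [dif_neg (Fin.succAbove_ne i₀ i)]
        have h5 : Classical.choose (Fin.exists_succAbove_eq (Fin.succAbove_ne i₀ i)) = i :=
          Fin.succAbove_right_injective
            (Classical.choose_spec (Fin.exists_succAbove_eq (Fin.succAbove_ne i₀ i)))
        rw [h5]
      rw [h4]
      ring)
    have hm0 : m = 0 := by
      have h6 := hall i₀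
      rw [dif_pos rfl, mul_zero, zero_sub, neg_eq_zero] at h6
      exact (mul_eq_zero.1 h6).resolve_right hi₀
    intro i
    have h7 := hall (i₀.succAbove i)
    rw [dif_neg (Fin.succAbove_ne i₀ i), hm0, zero_mul, sub_zero] at h7
    have h5 : Classical.choose (Fin.exists_succAbove_eq (Fin.succAbove_ne i₀ i)) = i :=
      Fin.succAbove_right_injective
        (Classical.choose_spec (Fin.exists_succAbove_eq (Fin.succAbove_ne i₀ i)))
    rw [h5] at h7
    exact (mul_eq_zero.1 h7).resolve_left hh
  · rw [eval_pull, map_mul]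
    exact mul_ne_zero hi₀ hh
  · intro p hp
    have hpt : pull Lp p ∈ vanishingIdeal ℂ Z := by
      rw [mem_vI]
      intro x hxZ
      obtain ⟨u, hu⟩ := hZ x hxZ
      rw [eval_pull, hu, ← hL, hLpL]
      refine mem_vI.1 hp u ?_
      show φ (u, 0) ∈ Z
      rw [← hu]
      exact hxZ
    obtain ⟨b, hb⟩ := smr_span F _ (hgen _ hpt)
    have hpp : pull L (pull Lp p) = p := by
      apply MvPolynomial.funext
      intro x
      rw [eval_pull, eval_pull, hLpL]
    have hll : pull L (linp lam) = 0 := by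
      apply MvPolynomial.funext
      intro x
      rw [eval_pull, eval_linp, hlamL, map_zero]
    have e1 : pull L h * p = ∑ i, pull L (b i) * pull L (F i) := by
      have h8 := congrArg (pull L) hb
      rw [hpm, hpp, hps] at h8
      rw [h8]
      exact Finset.sum_congr rfl (fun i _ => hpm _ _)
    have e2 : ∑ i, pull L (a i) * pull L (F i) = 0 := by
      have h8 := congrArg (pull L) ha
      rw [hpm, hll, mul_zero, hps] at h8
      rw [h8]
      exact Finset.sum_congr rfl (fun i _ => (hpm _ _).symm)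
    rw [Fin.sum_univ_succAbove _ i₀] at e1 e2
    have e3 : pull L (a i₀ * h) * p = ∑ i, (pull L (a i₀) * pull L (b (i₀.succAbove i)) -
        pull L (b i₀) * pull L (a (i₀.succAbove i))) * pull L (F (i₀.succAbove i)) := by
      have h9 : ∑ i, (pull L (a i₀) * pull L (b (i₀.succAbove i)) -
        pull L (b i₀) * pull L (a (i₀.succAbove i))) * pull L (F (i₀.succAbove i)) =
          pull L (a i₀) * ∑ i, pull L (b (i₀.succAbove i)) * pull L (F (i₀.succAbove i)) -
          pull L (b i₀) * ∑ i, pull L (a (i₀.succAbove i)) * pull L (F (i₀.succAbove i)) := by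
        rw [Finset.mul_sum, Finset.mul_sum, ← Finset.sum_sub_distrib]
        refine Finset.sum_congr rfl (fun i _ => ?_)
        ring
      rw [h9, hpm]
      linear_combination (pull L (a i₀)) * e1 + (pull L (b i₀)) * e2
    rw [e3]
    exact smr_mem (fun i => pull L (F (i₀.succAbove i))) _

end Pool.Agent.Helper87.VM
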